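import Mathlib

namespace Pool.Agent.Results.MP_e74ad6_co.Proof

open Finset

abbrev E2 := EuclideanSpace ℝ (Fin 2)

/-- The `3d` division points of the triangle with vertices `V 0, V 1, V 2`. -/
def marked (V : Fin 3 → E2) (d : ℕ) : Set E2 :=
  {P | ∃ (s : Fin 3) (i : ℕ), i ≤ d ∧ P = AffineMap.lineMap (V s) (V (s + 1)) ((i : ℝ) / d)}

/-- The lines of the Wang-Shi split: through two division points not on a common side. -/
def lines (V : Fin 3 → E2) (d : ℕ) : Set (AffineSubspace ℝ E2) :=
  {L | ∃ P ∈ marked V d, ∃ Q ∈ marked V d,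
    (¬ ∃ s : Fin 3, P ∈ segment ℝ (V s) (V (s + 1)) ∧ Q ∈ segment ℝ (V s) (V (s + 1))) ∧
    L = line[ℝ, P, Q]}

theorem mono {y z : ℝ} (hy : 0 < y) (hz : 0 < z) {i J i' J' : ℤ} (h1 : 0 < i) (h2 : 0 < J)
    (h1' : 0 < i') (h2' : 0 < J') (e : y * J + z * i = i * J) (e' : y * J' + z * i' = i' * J') :
    (i < i' → J' < J) := by
  intro h
  have a1 : (0 : ℝ) < i := by exact_mod_cast h1
  have a2 : (0 : ℝ) < J := by exact_mod_cast h2
  have a3 : (0 : ℝ) < i' := by exact_mod_cast h1'
  have a4 : (0 : ℝ) < J' := by exact_mod_cast h2'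
  have a5 : (i : ℝ) < i' := by exact_mod_cast h
  have b1 : y < i := by
    by_contra c
    push Not at c
    nlinarith [mul_pos hz a1, mul_nonneg (sub_nonneg.2 c) a2.le]
  have b2 : z < J := by
    by_contra c
    push Not at c
    nlinarith [mul_pos hy a2, mul_nonneg (sub_nonneg.2 c) a1.le]
  by_contra c
  have c' : (J : ℝ) ≤ J' := by exact_mod_cast (not_lt.1 c)
  have f1 : (i - y) * (J - z) = y * z := by linarith
  have f2 : (i' - y) * (J' - z) = y * z := by linarith
  have : (i - y) * (J - z) < (i' - y) * (J' - z) := by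
    calc (i - y) * (J - z) < (i' - y) * (J - z) := by nlinarith
      _ ≤ (i' - y) * (J' - z) := by nlinarith
  linarith

theorem cnt {y z : ℝ} (hy : 0 < y) (hz : 0 < z) (R : Finset (ℤ × ℤ))
    (hR : ∀ q ∈ R, 0 < q.1 ∧ 0 < q.2 ∧ y * q.2 + z * q.1 = q.1 * q.2) (lo hi : ℤ)
    (hb : ∀ q ∈ R, lo ≤ q.1 - q.2 ∧ q.1 - q.2 ≤ hi) (hne : R.Nonempty) :
    3 * (R.card : ℤ) ≤ 4 + hi - lo := by
  have key : ∀ q ∈ R, ∀ q' ∈ R, (q.1 < q'.1 ∧ q'.2 < q.2) ∨ q = q' ∨ (q'.1 < q.1 ∧ q.2 < q'.2) := by
    intro q hq q' hq'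
    obtain ⟨a1, a2, a3⟩ := hR q hq
    obtain ⟨b1, b2, b3⟩ := hR q' hq'
    have m1 := mono hy hz a1 a2 b1 b2 a3 b3
    have m2 := mono hy hz b1 b2 a1 a2 b3 a3
    have m3 := mono hz hy a2 a1 b2 b1 (by linarith) (by linarith)
    have m4 := mono hz hy b2 b1 a2 a1 (by linarith) (by linarith)
    rcases lt_trichotomy q.1 q'.1 with h | h | h
    · exact Or.inl ⟨h, m1 h⟩
    · right; left
      refine Prod.ext h ?_
      rcases lt_trichotomy q.2 q'.2 with h' | h' | h'
      · have := m3 h'; omega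
      · exact h'
      · have := m4 h'; omega
    · exact Or.inr (Or.inr ⟨h, m2 h⟩)
  have inj : ∀ k : ℤ, (R.image (fun q => q.1 - q.2 + k)).card = R.card := by
    intro k
    apply card_image_of_injOn
    intro q hq q' hq' e
    simp only at e
    rcases key q hq q' hq' with h | h | h
    · omega
    · exact h
    · omega
  set T0 := R.image (fun q => q.1 - q.2 + 0) with hT0
  set T1 := R.image (fun q => q.1 - q.2 + 1) with hT1
  set T2 := R.image (fun q => q.1 - q.2 + 2) with hT2
  have d1 : Disjoint (T0 ∪ T2) T1 := by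
    rw [disjoint_left]
    intro t ht ht1
    obtain ⟨q, hq, e⟩ := mem_image.1 ht1
    rcases mem_union.1 ht with h | h
    · obtain ⟨q', hq', e'⟩ := mem_image.1 h
      rcases key q hq q' hq' with h | h | h
      · omega
      · subst h; omega
      · omega
    · obtain ⟨q', hq', e'⟩ := mem_image.1 h
      rcases key q hq q' hq' with h | h | h
      · omega
      · subst h; omega
      · omega
  have d2 : (T0 ∩ T2).card ≤ 1 := by
    have hv : ∀ t ∈ T0 ∩ T2, (t : ℝ) = y - z + 1 := by
      intro t ht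
      obtain ⟨q, hq, e⟩ := mem_image.1 (mem_inter.1 ht).1
      obtain ⟨q', hq', e'⟩ := mem_image.1 (mem_inter.1 ht).2
      have h1 : q.1 = q'.1 + 1 ∧ q.2 = q'.2 - 1 := by
        rcases key q hq q' hq' with h | h | h
        · omega
        · subst h; omega
        · omega
      have a3 := (hR q hq).2.2
      have b3 := (hR q' hq').2.2
      rw [h1.1, h1.2] at a3
      rw [← e']
      push_cast at a3 ⊢
      linarith
    rw [card_le_one]
    intro a ha b hb'
    have : (a : ℝ) = b := by rw [hv a ha, hv b hb']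
    exact_mod_cast this
  have sub : (T0 ∪ T2) ∪ T1 ⊆ Icc lo (hi + 2) := by
    intro t ht
    simp only [mem_union, hT0, hT1, hT2, mem_image] at ht
    rw [mem_Icc]
    rcases ht with (⟨q, hq, e⟩ | ⟨q, hq, e⟩) | ⟨q, hq, e⟩ <;> have := hb q hq <;> omega
  have c1 := card_le_card sub
  rw [card_union_of_disjoint d1, Int.card_Icc] at c1
  have c2 := card_union_add_card_inter T0 T2
  have i0 : T0.card = R.card := inj 0
  have i1 : T1.card = R.card := inj 1
  have i2 : T2.card = R.card := inj 2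
  obtain ⟨q, hq⟩ := hne
  have := hb q hq
  omega

open Classical in
noncomputable def g (t : ℝ) : ℤ := ⌊t⌋ + if (⌊t⌋ : ℝ) = t then 1 else 0

open Classical in
noncomputable def H (d : ℕ) (y z : ℝ) : Finset (ℤ × ℤ) :=
  (Icc (1 : ℤ) d ×ˢ Icc (1 : ℤ) (d - 1)).filter (fun q => y * q.2 + z * q.1 = q.1 * q.2)

theorem arc (d : ℕ) {x y z : ℝ} (hx : 0 < x) (hy : 0 < y) (hz : 0 < z) (hs : x + y + z = d) :
    3 * ((H d y z).card : ℤ) ≤ d + 1 + g (x * d / (z + x)) - g (y * d / (x + y)) := by
  classical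
  have hd : (0 : ℝ) < d := by linarith
  set c := y * d / (x + y) with hc
  set b := x * d / (z + x) with hb
  have hc1 : c * (x + y) = y * d := by rw [hc]; field_simp
  have hb1 : b * (z + x) = x * d := by rw [hb]; field_simp
  have c0 : 0 < c := by positivity
  have b0 : 0 < b := by positivity
  have cd : c < d := by
    rw [hc, div_lt_iff₀ (by positivity)]; nlinarith
  have fc : ⌊c⌋ < d := by
    rw [Int.floor_lt]; exact_mod_cast cd
  have fb : 0 ≤ ⌊b⌋ := Int.floor_nonneg.2 b0.le
  have up : ∀ i J : ℤ, 0 < i → i ≤ d → 0 < J → y * J + z * i = i * J → i - J ≤ g b - 1 := by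
    intro i J h1 h2 h3 e
    have a3 : (0 : ℝ) < J := by exact_mod_cast h3
    have a1 : (0 : ℝ) < i := by exact_mod_cast h1
    rcases eq_or_lt_of_le h2 with h | h
    · subst h
      push_cast at e
      have e1 : b = ((d - J : ℤ) : ℝ) := by
        push_cast
        have : (b - (d - J)) * (z + x) = 0 := by
          have : y = d - x - z := by linarith
          subst this
          nlinarith
        rcases mul_eq_zero.1 this with h | h
        · linarith
        · linarith
      unfold g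
      rw [e1, Int.floor_intCast, if_pos rfl]
      omega
    · have h' : (i : ℝ) < d := by exact_mod_cast h
      have : ((d - J : ℤ) : ℝ) ≤ b := by
        push_cast
        by_contra cc
        push Not at cc
        have t1 : (d - J - b) * (z + x) > 0 := mul_pos (by linarith) (by linarith)
        have t2 : J * (d - y) < z * d := by
          have : x = d - y - z := by linarith
          subst this
          nlinarith
        have t3 : y * J * (d - i) > 0 := mul_pos (mul_pos hy a3) (by linarith)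
        have t4 : i * (z * d - J * (d - y)) > 0 := mul_pos a1 (by linarith)
        have t5 : d * (y * J + z * i) = d * (i * J) := by rw [e]
        nlinarith
      have := Int.le_floor.2 this
      unfold g
      split_ifs <;> omega
  have low : ∀ i J : ℤ, 0 < i → J < d → 0 < J → y * J + z * i = i * J → ⌊c⌋ < i := by
    intro i J h1 h2 h3 e
    have a3 : (0 : ℝ) < J := by exact_mod_cast h3
    have a1 : (0 : ℝ) < i := by exact_mod_cast h1
    have a2 : (J : ℝ) < d := by exact_mod_cast h2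
    rw [Int.floor_lt]
    by_contra cc
    push Not at cc
    have t1 : (c - i) * (x + y) ≥ 0 := mul_nonneg (by linarith) (by linarith)
    have t2 : i * (d - z) ≤ y * d := by
      have : x = d - y - z := by linarith
      subst this
      nlinarith
    have t3 : z * i * (d - J) > 0 := mul_pos (mul_pos hz a1) (by linarith)
    have t4 : J * (y * d - i * (d - z)) ≥ 0 := mul_nonneg a3.le (by linarith)
    have t5 : d * (y * J + z * i) = d * (i * J) := by rw [e]
    nlinarith
  have mem : ∀ q ∈ H d y z, 0 < q.1 ∧ q.1 ≤ d ∧ 0 < q.2 ∧ q.2 < d ∧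
      y * q.2 + z * q.1 = q.1 * q.2 := by
    intro q hq
    simp only [H, mem_filter, mem_product, mem_Icc] at hq
    exact ⟨by omega, by omega, by omega, by omega, hq.2⟩
  by_cases hi : (⌊c⌋ : ℝ) = c
  · have n0 : 0 < ⌊c⌋ := by
      have : (0 : ℝ) < ⌊c⌋ := by rw [hi]; exact c0
      exact_mod_cast this
    have e0 : y * ((d : ℤ) : ℝ) + z * ⌊c⌋ = ⌊c⌋ * ((d : ℤ) : ℝ) := by
      rw [hi]; push_cast
      have : x = d - y - z := by linarith
      subst this
      nlinarith
    have d0 : (0 : ℤ) < d := by exact_mod_cast hd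
    have nm : (⌊c⌋, (d : ℤ)) ∉ H d y z := fun h => by have := mem _ h; simp at this
    have := cnt hy hz (insert (⌊c⌋, (d : ℤ)) (H d y z)) (by
        intro q hq
        rcases mem_insert.1 hq with rfl | hq
        · exact ⟨n0, d0, e0⟩
        · have := mem q hq; tauto) (⌊c⌋ - d) (g b - 1) (by
        intro q hq
        rcases mem_insert.1 hq with rfl | hq
        · exact ⟨le_rfl, up _ _ n0 fc.le d0 e0⟩
        · obtain ⟨a1, a2, a3, a4, a5⟩ := mem q hq
          have := low _ _ a1 a4 a3 a5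
          exact ⟨by omega, up _ _ a1 a2 a3 a5⟩) (insert_nonempty _ _)
    rw [card_insert_of_notMem nm] at this
    have gc : g c = ⌊c⌋ + 1 := by unfold g; rw [if_pos hi]
    push_cast at this
    omega
  · have gc : g c = ⌊c⌋ := by unfold g; rw [if_neg hi]; simp
    rcases (H d y z).eq_empty_or_nonempty with h | h
    · rw [h]
      have : 0 ≤ g b := by unfold g; split_ifs <;> omega
      simp only [card_empty]
      omega
    · have := cnt hy hz (H d y z) (fun q hq => by have := mem q hq; tauto) (⌊c⌋ + 2 - d) (g b - 1)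
        (by
          intro q hq
          obtain ⟨a1, a2, a3, a4, a5⟩ := mem q hq
          have := low _ _ a1 a4 a3 a5
          exact ⟨by omega, up _ _ a1 a2 a3 a5⟩) h
      omega

noncomputable def mk (V : Fin 3 → E2) (d : ℕ) (s : Fin 3) (i : ℤ) : E2 :=
  AffineMap.lineMap (V s) (V (s + 1)) ((i : ℝ) / d)

theorem marked_norm {V : Fin 3 → E2} {d : ℕ} (hd : 0 < d) {P : E2} (h : P ∈ marked V d) :
    ∃ s, ∃ i : ℤ, 1 ≤ i ∧ i ≤ d ∧ P = mk V d s i := by
  obtain ⟨s, i, hi, rfl⟩ := h
  rcases Nat.eq_zero_or_pos i with rfl | h0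
  · refine ⟨s + 2, d, by exact_mod_cast hd, le_rfl, ?_⟩
    have : (d : ℝ) ≠ 0 := by positivity
    have e : s + 2 + 1 = s := by fin_cases s <;> rfl
    simp [mk, div_self this, e]
  · exact ⟨s, i, by exact_mod_cast h0, by exact_mod_cast hi, by simp [mk]⟩

theorem mk_seg (V : Fin 3 → E2) {d : ℕ} (hd : 0 < d) (s : Fin 3) {i : ℤ} (h0 : 0 ≤ i) (h1 : i ≤ d) :
    mk V d s i ∈ segment ℝ (V s) (V (s + 1)) := by
  rw [segment_eq_image_lineMap]
  have hd' : (0 : ℝ) < d := by exact_mod_cast hd
  have a0 : (0 : ℝ) ≤ i := by exact_mod_cast h0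
  have a1 : (i : ℝ) ≤ d := by exact_mod_cast h1
  exact ⟨_, ⟨by positivity, (div_le_one hd').2 a1⟩, rfl⟩

theorem result (V : Fin 3 → E2) (hV : AffineIndependent ℝ V) (d : ℕ) (hd : 2 ≤ d) (p : E2)
    (hp : p ∈ interior (convexHull ℝ (Set.range V))) :
    {L | L ∈ lines V d ∧ p ∈ L}.encard ≤ (d + 1 : ℕ) := by
  classical
  have hd0 : 0 < d := by omega
  have hd' : (0 : ℝ) < d := by exact_mod_cast hd0
  let B : AffineBasis (Fin 3) ℝ E2 :=
    ⟨V, hV, hV.affineSpan_eq_top_iff_card_eq_finrank_add_one.2 (by simp)⟩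
  have hB : ∀ s, B s = V s := fun _ => rfl
  have hp' : ∀ s, 0 < B.coord s p := by
    have := B.interior_convexHull
    have h2 : p ∈ interior (convexHull ℝ (Set.range B)) := hp
    rw [this] at h2
    exact h2
  let x : Fin 3 → ℝ := fun s => d * B.coord s p
  have hx : ∀ s, 0 < x s := fun s => mul_pos hd' (hp' s)
  have hsum : x 0 + x 1 + x 2 = d := by
    have := B.sum_coord_apply_eq_one p
    rw [Fin.sum_univ_three] at this
    simp only [x]
    rw [← mul_add, ← mul_add, this, mul_one]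
  let F : Fin 3 → Finset (AffineSubspace ℝ E2) := fun s =>
    (H d (x (s + 1)) (x (s + 2))).image
      (fun q => line[ℝ, mk V d s q.1, mk V d (s + 2) (d - q.2)])
  have main : ∀ (s : Fin 3) (i j : ℤ), 1 ≤ i → i ≤ d → 1 ≤ j → j ≤ d →
      (¬ ∃ t : Fin 3, mk V d s i ∈ segment ℝ (V t) (V (t + 1)) ∧
        mk V d (s + 2) j ∈ segment ℝ (V t) (V (t + 1))) →
      p ∈ line[ℝ, mk V d s i, mk V d (s + 2) j] → line[ℝ, mk V d s i, mk V d (s + 2) j] ∈ F s := by
    intro s i j a1 a2 a3 a4 hn hpl
    have e : s + 2 + 1 = s := by fin_cases s <;> rfl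
    have jd : j ≠ d := by
      rintro rfl
      apply hn
      refine ⟨s, mk_seg V hd0 s (by omega) a2, ?_⟩
      simp only [mk, e, Int.cast_natCast, div_self hd'.ne', AffineMap.lineMap_apply_one]
      exact left_mem_segment _ _ _
    refine mem_image.2 ⟨(i, d - j), ?_, by simp⟩
    simp only [H, mem_filter, mem_product, mem_Icc]
    refine ⟨by omega, ?_⟩
    obtain ⟨r, hr⟩ := mem_affineSpan_pair_iff_exists_lineMap_eq.1 hpl
    have n1 : s + 1 ≠ s := by fin_cases s <;> decide
    have n2 : s + 1 ≠ s + 2 := by fin_cases s <;> decide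
    have n3 : s + 2 ≠ s := by fin_cases s <;> decide
    have c1 : x (s + 1) = (1 - r) * i := by
      simp only [x, ← hr, mk, AffineMap.apply_lineMap, e, ← hB, B.coord_apply, if_pos, if_neg n1,
        if_neg n2, AffineMap.lineMap_apply_ring]
      field_simp
      ring
    have c2 : x (s + 2) = r * (d - j) := by
      simp only [x, ← hr, mk, AffineMap.apply_lineMap, e, ← hB, B.coord_apply, if_pos, if_neg n3,
        if_neg n2.symm, AffineMap.lineMap_apply_ring]
      field_simp
      ring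
    rw [c1, c2]
    push_cast
    ring
  have hsub : {L | L ∈ lines V d ∧ p ∈ L} ⊆ ((F 0 ∪ F 1 ∪ F 2 : Finset _) : Set _) := by
    rintro L ⟨⟨P, hP, Q, hQ, hn, rfl⟩, hpl⟩
    obtain ⟨s, i, a1, a2, rfl⟩ := marked_norm hd0 hP
    obtain ⟨t, j, a3, a4, rfl⟩ := marked_norm hd0 hQ
    have fin : ∀ s L, L ∈ F s → L ∈ ((F 0 ∪ F 1 ∪ F 2 : Finset _) : Set _) := by
      intro s L h
      simp only [coe_union, Set.mem_union, mem_coe]
      fin_cases s
      · exact Or.inl (Or.inl h)
      · exact Or.inl (Or.inr h)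
      · exact Or.inr h
    have tri : t = s ∨ t = s + 2 ∨ s = t + 2 :=
      (by decide : ∀ s t : Fin 3, t = s ∨ t = s + 2 ∨ s = t + 2) s t
    rcases tri with rfl | rfl | rfl
    · exact absurd ⟨t, mk_seg V hd0 t (by omega) a2, mk_seg V hd0 t (by omega) a4⟩ hn
    · exact fin s _ (main s i j a1 a2 a3 a4 hn hpl)
    · rw [Set.pair_comm] at hpl ⊢
      exact fin t _ (main t j i a3 a4 a1 a2 (fun ⟨u, h1, h2⟩ => hn ⟨u, h2, h1⟩) hpl)
  refine (Set.encard_le_encard hsub).trans ?_
  rw [Set.encard_coe_eq_coe_finsetCard]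
  have k0 := arc d (hx 0) (hx 1) (hx 2) hsum
  have k1 := arc d (hx 1) (hx 2) (hx 0) (by linarith)
  have k2 := arc d (hx 2) (hx 0) (hx 1) (by linarith)
  have f0 : (F 0).card ≤ (H d (x 1) (x 2)).card := card_image_le
  have f1 : (F 1).card ≤ (H d (x 2) (x 0)).card := card_image_le
  have f2 : (F 2).card ≤ (H d (x 0) (x 1)).card := card_image_le
  have u1 := card_union_le (F 0 ∪ F 1) (F 2)
  have u2 := card_union_le (F 0) (F 1)
  have : (F 0 ∪ F 1 ∪ F 2).card ≤ d + 1 := by omega
  exact_mod_cast this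

end Pool.Agent.Results.MP_e74ad6_co.Proof
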